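import Mathlib

set_option autoImplicit false

namespace Pool.Agent.H.MP_836feb_al

abbrev Burnside (ι : Type) (n : ℕ) : Type :=
  FreeGroup ι ⧸ Subgroup.normalClosure (Set.range fun w : FreeGroup ι => w ^ n)

def IsRetract {G : Type} [Group G] (H : Subgroup G) : Prop :=
  ∃ ρ : G →* H, ∀ h : H, ρ h = h

def HasNonfreeRetract (ι : Type) (n : ℕ) : Prop :=
  ∃ H : Subgroup (Burnside ι n), IsRetract H ∧ ∀ κ : Type, IsEmpty (H ≃* Burnside κ n)

end Pool.Agent.H.MP_836feb_al
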