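import Mathlib
import Pool.Agent.H.MP_836feb_al.Defs

set_option autoImplicit false

namespace Pool.Agent.H.MP_836feb_al

def lift {ι : Type} {n : ℕ} {G : Type} [Group G] (h : ∀ g : G, g ^ n = 1) (f : ι → G) :
    Burnside ι n →* G :=
  QuotientGroup.lift _ (FreeGroup.lift f) (Subgroup.normalClosure_le_normal (N := MonoidHom.ker _) (by
    rintro _ ⟨w, rfl⟩
    simp [h]))

def gen {ι : Type} (n : ℕ) (i : ι) : Burnside ι n := QuotientGroup.mk (FreeGroup.of i)

lemma lift_gen {ι : Type} {n : ℕ} {G : Type} [Group G] (h : ∀ g : G, g ^ n = 1) (f : ι → G)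
    (i : ι) : lift h f (gen n i) = f i := by simp [lift, gen]

lemma expo {ι : Type} {n : ℕ} (g : Burnside ι n) : g ^ n = 1 := by
  obtain ⟨w, rfl⟩ := QuotientGroup.mk_surjective g
  rw [← QuotientGroup.mk_pow, QuotientGroup.eq_one_iff]
  exact Subgroup.subset_normalClosure ⟨w, rfl⟩

lemma gen_pow {ι : Type} {n : ℕ} (i : ι) {a : ℕ} (h : gen n i ^ a = 1) : n ∣ a := by
  have := congrArg (lift (G := Multiplicative (ZMod n))
    (fun g => by rw [← ofAdd_toAdd g, ← ofAdd_nsmul]; simp) fun _ => Multiplicative.ofAdd 1) h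
  rw [map_pow, lift_gen, MonoidHom.map_one, ← ofAdd_nsmul, nsmul_one] at this
  exact (ZMod.natCast_eq_zero_iff a n).1 this

lemma main {a b : ℕ} (ha : 1 < a) (hb : 1 < b) (hab : a.Coprime b) (ι : Type) [Nonempty ι] :
    HasNonfreeRetract ι (a * b) := by
  obtain ⟨i⟩ := ‹Nonempty ι›
  obtain ⟨e, e1, e0⟩ := Nat.chineseRemainder hab 1 0
  have eb : b ∣ e := (Nat.modEq_zero_iff_dvd).1 e0
  set x := gen (a * b) i
  let r : Burnside ι (a * b) →* Burnside ι (a * b) := lift expo fun _ => x ^ e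
  have hr : ∀ g, r g ∈ Subgroup.zpowers (x ^ e) := fun g => by
    obtain ⟨w, rfl⟩ := QuotientGroup.mk_surjective g
    have : r w = FreeGroup.lift (fun _ => x ^ e) w := rfl
    rw [this]
    exact FreeGroup.range_lift_le (by rintro _ ⟨j, rfl⟩; exact Subgroup.mem_zpowers _) ⟨w, rfl⟩
  have rx : r (x ^ e) = x ^ e := by
    rw [map_pow, lift_gen, ← pow_mul]
    refine pow_eq_pow_of_modEq ((Nat.modEq_and_modEq_iff_modEq_mul hab).1 ⟨?_, ?_⟩) (expo x)
    · simpa using e1.mul_left e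
    · exact (by simpa using e0.mul_left e : e * e ≡ 0 [MOD b]).trans e0.symm
  refine ⟨Subgroup.zpowers (x ^ e), ⟨r.codRestrict _ hr, ?_⟩, fun κ => ⟨fun φ => ?_⟩⟩
  · rintro ⟨_, k, rfl⟩
    refine Subtype.ext ?_
    show r ((x ^ e) ^ k) = (x ^ e) ^ k
    rw [map_zpow, rx]
  · rcases isEmpty_or_nonempty κ with hκ | ⟨⟨j⟩⟩
    · haveI : Subsingleton (Burnside κ (a * b)) := QuotientGroup.mk_surjective.subsingleton
      have := congrArg Subtype.val (φ.injective (Subsingleton.elim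
        (φ ⟨x ^ e, Subgroup.mem_zpowers _⟩) (φ 1)))
      have := (Nat.modEq_zero_iff_dvd).2 ((Dvd.intro _ rfl).trans (gen_pow i this))
      have := (Nat.modEq_zero_iff_dvd).1 (e1.symm.trans this)
      exact absurd (Nat.le_of_dvd one_pos this) (by omega)
    · obtain ⟨⟨_, k, rfl⟩, hy⟩ := φ.surjective (gen _ j)
      have : gen (a * b) j ^ a = 1 := by
        rw [← hy, ← map_pow, map_eq_one_iff _ φ.injective]
        refine Subtype.ext ?_
        obtain ⟨c, rfl⟩ := eb
        show ((x ^ (b * c)) ^ k) ^ a = 1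
        rw [← zpow_natCast, ← zpow_mul, mul_comm k, zpow_mul, zpow_natCast, ← pow_mul, mul_comm _ a,
          ← mul_assoc, pow_mul, expo, one_pow, one_zpow]
      have := Nat.le_of_dvd (by omega) (gen_pow j this)
      nlinarith

lemma main' {n : ℕ} (h1 : 1 < n) (h : ¬ IsPrimePow n) (ι : Type) [Nonempty ι] :
    HasNonfreeRetract ι n := by
  have pp := Nat.minFac_prime h1.ne'
  obtain ⟨k, b, hb, e⟩ := Nat.exists_eq_pow_mul_and_not_dvd (by omega : n ≠ 0) _ pp.ne_one
  have hk : k ≠ 0 := by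
    rintro rfl
    rw [pow_zero, one_mul] at e
    exact hb (e ▸ Nat.minFac_dvd n)
  have b1 : b ≠ 1 := by
    rintro rfl
    exact h (by rw [e, mul_one]; exact pp.isPrimePow.pow hk)
  have b0 : b ≠ 0 := by
    rintro rfl
    exact hb (dvd_zero _)
  rw [e]
  exact main (Nat.one_lt_pow hk pp.one_lt) (by omega)
    (((Nat.Prime.coprime_iff_not_dvd pp).2 hb).pow_left k) ι

end Pool.Agent.H.MP_836feb_al
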